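import Pool.Agent.Helper60.SB.Defs3

/-! U10: size of the hyperbolic layers. -/

open Finset MeasureTheory
open scoped ENNReal Real

namespace Pool.Agent.Helper60.SB

theorem natAbs_lt_lev {d : ℕ} (k : Fin d → ℤ) (j : Fin d) : (k j).natAbs < 2 ^ lev k j :=
  Nat.lt_size_self _

theorem abs_le_of_sum_lev {d m : ℕ} {k : Fin d → ℤ} (h : ∑ j, lev k j = m) (j : Fin d) :
    |k j| ≤ 2 ^ m := by
  have h1 : lev k j ≤ m := by
    rw [← h]
    exact Finset.single_le_sum (f := fun j => lev k j) (fun _ _ => Nat.zero_le _)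
      (Finset.mem_univ j)
  have h2 : (k j).natAbs < 2 ^ m :=
    lt_of_lt_of_le (natAbs_lt_lev k j) (Nat.pow_le_pow_right (by norm_num) h1)
  have h3 : ((k j).natAbs : ℤ) ≤ (2 ^ m : ℕ) := by exact_mod_cast h2.le
  rw [Int.abs_eq_natAbs]
  push_cast at h3
  simpa using h3

theorem mem_Qm (d m : ℕ) (k : Fin d → ℤ) : k ∈ Qm d m ↔ ∑ j, lev k j = m := by
  unfold Qm
  rw [Finset.mem_filter, Fintype.mem_piFinset]
  constructor
  · exact fun h => h.2
  · intro h
    refine ⟨fun j => ?_, h⟩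
    rw [Finset.mem_Icc]
    exact abs_le.1 (abs_le_of_sum_lev h j)

theorem Qm_le (d m : ℕ) (k : Fin d → ℤ) (hk : k ∈ Qm d m) (j : Fin d) : |k j| ≤ 2 ^ m :=
  abs_le_of_sum_lev ((mem_Qm d m k).1 hk) j

/-- the map recording all but the last level -/
def blkMap (e m : ℕ) (k : Fin (e + 1) → ℤ) : Fin e → Fin (m + 1) :=
  fun i => ⟨min (lev k i.castSucc) m, Nat.lt_succ_of_le (min_le_right _ _)⟩

theorem blkMap_spec (e m : ℕ) (k : Fin (e + 1) → ℤ) (hk : k ∈ Qm (e + 1) m)
    (k' : Fin (e + 1) → ℤ) (hk' : k' ∈ Qm (e + 1) m) (h : blkMap e m k = blkMap e m k') :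
    lev k = lev k' := by
  rw [mem_Qm] at hk hk'
  have hle : ∀ k : Fin (e + 1) → ℤ, ∑ j, lev k j = m → ∀ j, lev k j ≤ m := by
    intro k hk j
    rw [← hk]
    exact Finset.single_le_sum (f := fun j => lev k j) (fun _ _ => Nat.zero_le _)
      (Finset.mem_univ j)
  have h1 : ∀ i : Fin e, lev k i.castSucc = lev k' i.castSucc := by
    intro i
    have h2 := congrArg Fin.val (congrFun h i)
    unfold blkMap at h2
    simp only at h2
    rw [min_eq_left (hle k hk _), min_eq_left (hle k' hk' _)] at h2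
    exact h2
  rw [Fin.sum_univ_castSucc] at hk hk'
  have h3 : ∑ i : Fin e, lev k i.castSucc = ∑ i : Fin e, lev k' i.castSucc :=
    Finset.sum_congr rfl fun i _ => h1 i
  funext j
  refine Fin.lastCases ?_ (fun i => h1 i) j
  omega

/-- an index of the dyadic blocks of level `m` -/
theorem exists_blk (e m : ℕ) : ∃ bl : (Fin (e + 1) → ℤ) → (Fin e → Fin (m + 1)),
    ∀ k ∈ Qm (e + 1) m, ∀ k' ∈ Qm (e + 1) m, bl k = bl k' → lev k = lev k' :=
  ⟨blkMap e m, fun k hk k' hk' h => blkMap_spec e m k hk k' hk' h⟩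

/-- integers of level `s` -/
noncomputable def levZ (s : ℕ) : Finset ℤ :=
  (Finset.Icc (-2 ^ s : ℤ) (2 ^ s)).filter fun z => z.natAbs.size = s

theorem mem_levZ (s : ℕ) (z : ℤ) : z ∈ levZ s ↔ z.natAbs.size = s := by
  unfold levZ
  rw [Finset.mem_filter]
  constructor
  · exact fun h => h.2
  · intro h
    refine ⟨?_, h⟩
    have h2 : z.natAbs < 2 ^ s := by rw [← h]; exact Nat.lt_size_self _
    have h3 : (z.natAbs : ℤ) < (2 ^ s : ℕ) := by exact_mod_cast h2
    push_cast at h3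
    rw [Finset.mem_Icc]
    exact abs_le.1 (by simpa using h3.le)

theorem card_levZ (s : ℕ) : (levZ s).card ≤ 2 ^ s := by
  rcases s with _ | s
  · rw [pow_zero]
    refine Finset.card_le_one.2 ?_
    intro a ha b hb
    rw [mem_levZ, Nat.size_eq_zero] at ha hb
    omega
  · have hsub : levZ (s + 1) ⊆ (Finset.Ico (2 ^ s : ℤ) (2 ^ (s + 1))) ∪
        (Finset.Ioc (-2 ^ (s + 1) : ℤ) (-2 ^ s)) := by
      intro z hz
      rw [mem_levZ] at hz
      have h1 : z.natAbs < 2 ^ (s + 1) := by rw [← hz]; exact Nat.lt_size_self _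
      have h2 : 2 ^ s ≤ z.natAbs := by
        by_contra hcon
        push Not at hcon
        have := Nat.size_le.2 hcon
        omega
      rw [Finset.mem_union, Finset.mem_Ico, Finset.mem_Ioc]
      have h1' : (z.natAbs : ℤ) < 2 ^ (s + 1) := by exact_mod_cast h1
      have h2' : (2 : ℤ) ^ s ≤ z.natAbs := by exact_mod_cast h2
      rcases abs_cases z with hz' | hz' <;> [left; right] <;> constructor <;> omega
    refine (Finset.card_le_card hsub).trans ((Finset.card_union_le _ _).trans ?_)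
    rw [Int.card_Ico, Int.card_Ioc]
    have e1 : ((2 : ℤ) ^ (s + 1) - 2 ^ s).toNat = 2 ^ s := by
      have : (2 : ℤ) ^ (s + 1) - 2 ^ s = ((2 ^ s : ℕ) : ℤ) := by push_cast; ring
      rw [this, Int.toNat_natCast]
    have e2 : (-(2 : ℤ) ^ s - (-2 ^ (s + 1))).toNat = 2 ^ s := by
      have : -(2 : ℤ) ^ s - (-2 ^ (s + 1)) = ((2 ^ s : ℕ) : ℤ) := by push_cast; ring
      rw [this, Int.toNat_natCast]
    rw [e1, e2, pow_succ]
    omega

theorem card_fiber_le (e m : ℕ) (k : Fin (e + 1) → ℤ) (hk : k ∈ Qm (e + 1) m) :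
    ((Qm (e + 1) m).filter fun k' => lev k' = lev k).card ≤ 2 ^ m := by
  have hsub : ((Qm (e + 1) m).filter fun k' => lev k' = lev k) ⊆
      Fintype.piFinset fun j => levZ (lev k j) := by
    intro k' hk'
    rw [Finset.mem_filter] at hk'
    rw [Fintype.mem_piFinset]
    intro j
    rw [mem_levZ]
    exact congrFun hk'.2 j
  refine (Finset.card_le_card hsub).trans ?_
  rw [Fintype.card_piFinset]
  refine (Finset.prod_le_prod (fun _ _ => Nat.zero_le _) fun j _ => card_levZ (lev k j)).trans ?_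
  rw [Finset.prod_pow_eq_pow_sum, (mem_Qm _ _ _).1 hk]

theorem card_Qm (e m : ℕ) : ((Qm (e + 1) m).card : ℝ) ≤ ((m : ℝ) + 1) ^ e * 2 ^ m := by
  have h1 : (Qm (e + 1) m).card ≤ 2 ^ m * ((Qm (e + 1) m).image (blkMap e m)).card := by
    refine Finset.card_le_mul_card_image _ _ ?_
    intro a ha
    obtain ⟨k, hk, rfl⟩ := Finset.mem_image.1 ha
    refine (Finset.card_le_card ?_).trans (card_fiber_le e m k hk)
    intro k' hk'
    rw [Finset.mem_filter] at hk' ⊢
    exact ⟨hk'.1, blkMap_spec e m k' hk'.1 k hk hk'.2⟩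
  have h2 : ((Qm (e + 1) m).image (blkMap e m)).card ≤ (m + 1) ^ e := by
    refine (Finset.card_le_univ _).trans (le_of_eq ?_)
    simp
  have h3 : (Qm (e + 1) m).card ≤ (m + 1) ^ e * 2 ^ m := by
    calc (Qm (e + 1) m).card ≤ 2 ^ m * ((Qm (e + 1) m).image (blkMap e m)).card := h1
      _ ≤ 2 ^ m * (m + 1) ^ e := Nat.mul_le_mul_left _ h2
      _ = (m + 1) ^ e * 2 ^ m := mul_comm _ _
  exact_mod_cast h3

end Pool.Agent.Helper60.SB
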